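import Pool.Agent.Helper39.LS.Unit
import Pool.Agent.Helper55.LS.Exch

/-!
# Unit weights: the ratio `2 / (k + 2)`
-/

set_option autoImplicit false

namespace Pool.Agent.Helper39.LS

open Pool.Agent.Helper68.SP Pool.Agent.Helper39.SR

/-- **Unit weights**: arbitrary matroids, any rank, ratio `2 / (k + 2)`. -/
theorem unit_final {k : ℕ} (hk : 2 ≤ k) {ε : ℝ} (hε : 0 < ε) :
    ∃ (C : ℝ) (s : ℕ), 0 < C ∧
    ∀ (E : Type) [Fintype E] [DecidableEq E] (M : Fin k → Matroid E) (p : ℝ), 0 < p → p ≤ 1 →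
      ∃ Q : Finset E, (Q.card : ℝ) ≤ C / p ^ s *
          ((sSup {n : ℕ | ∃ S : Finset E, (∀ i, (M i).Indep (S : Set E)) ∧
            n = S.card} : ℕ) : ℝ) ∧
        (1 - ε) * (2 / (k + 2)) * Ex (fun _ => p)
            (optC (fun S : Finset E => ∀ i, (M i).Indep (S : Set E)) (fun _ => 1)) ≤
          Ex (fun _ => p) (fun R =>
            optC (fun S : Finset E => ∀ i, (M i).Indep (S : Set E)) (fun _ => 1) (Q ∩ R)) :=
  unit_ls hk (fun d hd => by
    obtain ⟨s, hs, h⟩ := Pool.Agent.Helper55.LS.local_search hk hd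
    refine ⟨s, hs, fun E _ _ M B S hB hS hlt => ?_⟩
    obtain ⟨X, h1, h2, B', h3, h4, h5⟩ := h M hB hS hlt
    exact ⟨X, h1, h2, B', h3, h4, h5⟩) hε

end Pool.Agent.Helper39.LS
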